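import Pool.Agent.Run7.h768.FixNet

/-!
Permutation flags in closures of Springer cells: for fixed permutations `v`, `w` and matrices `X` in one
nilpotent orbit, strictly upper triangular, the condition that `vB` lies in the closure of
`C_w ∩ S_X` is equivalent to solvability of an arbitrary system of polynomial equations.
-/

namespace Pool.Agent.Results.MP_3a0658_ag.FixedPointsEncodeSystems

open Pool.Agent.Run7.h768

theorem result (q d c : ℕ) :
    ∃ (n : ℕ) (v w : Equiv.Perm (Fin n))
      (X : Matrix (Fin n) (Fin n) (MvPolynomial (Fin c × (Fin q → Fin (d + 1))) ℤ)),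
      (∀ a a' : Fin c × (Fin q → Fin (d + 1)) → ℂ, ∃ g : GL (Fin n) ℂ,
        special X a' = g.1 * special X a * (g⁻¹ : GL (Fin n) ℂ).1) ∧
      ∀ a : Fin c × (Fin q → Fin (d + 1)) → ℂ,
        (∀ i j, j ≤ i → special X a i j = 0) ∧
        ((permMat w : GL (Fin n) ℂ) : Flag n) ∈ SpringerFiber (special X a) ∧
        ((permMat v : GL (Fin n) ℂ) : Flag n) ∈ SpringerFiber (special X a) ∧
        (((permMat v : GL (Fin n) ℂ) : Flag n) ∈
            zariskiClosure (SchubertCell w ∩ SpringerFiber (special X a)) ↔
          ∃ x : Fin q → ℂ, ∀ l : Fin c, polyVal (fun α => a (l, α)) x = 0) :=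
  mainFix q d c

end Pool.Agent.Results.MP_3a0658_ag.FixedPointsEncodeSystems
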